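import Pool.Agent.H312R3.M34.Cor

/-!
# A measure of linear independence for `1, ζ(3), π ^ 4`
-/

set_option autoImplicit false

namespace Pool.Agent.Results.MP_e48a95_nt.MeasureZetaThreePiFour

/-- (1) explicit exponent for the linear forms in `1, ζ(3), π ^ 4` with nonzero coefficient of `π ^ 4`;
(2) the same divided by `π ^ 3`, a statement on `ζ(3) / π ^ 3`;
(3) a measure for all nonzero linear forms in `1, ζ(3), π ^ 4`;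
(4), (5) irrationality exponent at most `2401` for `ζ(3) + s π ^ 4`, `s ≠ 0` rational, and for `ζ(3) / π ^ 4`. -/
theorem result :
    (∃ c : ℝ, 0 < c ∧ ∀ a b d : ℤ, d ≠ 0 →
      c / (max |(b : ℝ)| |(d : ℝ)|) ^ 2400 ≤
        |(a : ℝ) + b * (∑' n : ℕ, 1 / ((n : ℝ) + 1) ^ 3) + d * Real.pi ^ 4|) ∧
    (∃ c : ℝ, 0 < c ∧ ∀ a b d : ℤ, d ≠ 0 →
      c / (max |(b : ℝ)| |(d : ℝ)|) ^ 2400 ≤
        |b * ((∑' n : ℕ, 1 / ((n : ℝ) + 1) ^ 3) / Real.pi ^ 3) + a / Real.pi ^ 3 + d * Real.pi|) ∧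
    (∃ c : ℝ, 0 < c ∧ ∃ κ : ℕ, ∀ a b d : ℤ, ¬ (a = 0 ∧ b = 0 ∧ d = 0) →
      c / (max (max |(a : ℝ)| |(b : ℝ)|) |(d : ℝ)|) ^ κ ≤
        |(a : ℝ) + b * (∑' n : ℕ, 1 / ((n : ℝ) + 1) ^ 3) + d * Real.pi ^ 4|) ∧
    (∀ s : ℚ, s ≠ 0 → ∃ c : ℝ, 0 < c ∧ ∀ p q : ℤ, 0 < q →
      c / (q : ℝ) ^ 2401 ≤ |(∑' n : ℕ, 1 / ((n : ℝ) + 1) ^ 3) + s * Real.pi ^ 4 - p / q|) ∧
    (∃ c : ℝ, 0 < c ∧ ∀ p q : ℤ, 0 < q →
      c / (q : ℝ) ^ 2401 ≤ |(∑' n : ℕ, 1 / ((n : ℝ) + 1) ^ 3) / Real.pi ^ 4 - p / q|) := by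
  refine ⟨?_, ?_, ?_, fun s hs => Pool.Agent.ZF.Mea.shift_exp s hs, Pool.Agent.ZF.Mea.quot_exp⟩
  · obtain ⟨c, hc, h⟩ := Pool.Agent.ZF.Mea.pi_d
    exact ⟨c, hc, fun a b d hd => h a b d hd _ (le_max_left _ _) (le_max_right _ _)⟩
  · obtain ⟨c, hc, h⟩ := Pool.Agent.ZF.Mea.pi_d
    have hpi : (0 : ℝ) < Real.pi ^ 3 := by positivity
    refine ⟨c / Real.pi ^ 3, by positivity, fun a b d hd => ?_⟩
    have h1 := h a b d hd _ (le_max_left _ _) (le_max_right _ _)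
    have e1 : (b : ℝ) * ((∑' n : ℕ, 1 / ((n : ℝ) + 1) ^ 3) / Real.pi ^ 3) + a / Real.pi ^ 3 + d * Real.pi =
        ((a : ℝ) + b * Pool.Agent.H337R2.zr 3 + d * Real.pi ^ 4) / Real.pi ^ 3 := by
      have e0 : Pool.Agent.H337R2.zr 3 = ∑' n : ℕ, 1 / ((n : ℝ) + 1) ^ 3 := rfl
      rw [e0]
      field_simp
      ring
    rw [e1, abs_div, abs_of_pos hpi, div_right_comm]
    exact div_le_div_of_nonneg_right h1 hpi.le
  · obtain ⟨c, hc, κ, h⟩ := Pool.Agent.ZF.Mea.pi_all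
    refine ⟨c, hc, κ, fun a b d h0 => h a b d h0 _ ?_ ((le_max_right _ _).trans (le_max_left _ _)) (le_max_right _ _)⟩
    have key : ∀ m : ℤ, m ≠ 0 → (1 : ℝ) ≤ |(m : ℝ)| := fun m hm => by
      have : (1 : ℤ) ≤ |m| := Int.one_le_abs hm
      exact_mod_cast this
    by_cases ha : a = 0
    · by_cases hb : b = 0
      · exact (key d (fun hd => h0 ⟨ha, hb, hd⟩)).trans (le_max_right _ _)
      · exact (key b hb).trans ((le_max_right _ _).trans (le_max_left _ _))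
    · exact (key a ha).trans ((le_max_left _ _).trans (le_max_left _ _))

end Pool.Agent.Results.MP_e48a95_nt.MeasureZetaThreePiFour
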