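import Mathlib
import Pool.Agent.H447R2.MZ.Alg

set_option autoImplicit false

namespace Pool.Agent.Results.MP_e48a95_nt.SmallDimension

/-- The `ℚ`-span of the multiple zeta values of weight `n` (weight `0` gives `ℚ`, weight `1`
gives `0`). -/
noncomputable def Z (n : ℕ) : Submodule ℚ ℝ :=
  Submodule.span ℚ
    {x : ℝ | ∃ t : ℕ, ∃ k : Fin t → ℕ,
      (∀ i, 1 ≤ k i) ∧ (∀ h : 0 < t, 2 ≤ k ⟨0, h⟩) ∧ (∑ i, k i) = n ∧
      x = ∑' m : {m : Fin t → ℕ // StrictAnti m ∧ ∀ i, 1 ≤ m i},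
            ∏ i, (((m.1 i : ℕ) : ℝ) ^ (k i))⁻¹}

/-- If in one weight `n ≥ 2` the span of the multiple zeta values has dimension at most `m`, where
`6 m ≤ n` (`n` even), `6 m + 3 ≤ n` (`n` odd), then `ζ(3)` is transcendental and `(ζ(3)/π³)²` is
algebraic of degree at most `m`. -/
theorem result (n m : ℕ) (hn : 2 ≤ n) (hmn : 6 * m + 3 * (n % 2) ≤ n)
    (hdim : Module.rank ℚ (Z n) ≤ (m : Cardinal)) :
    Transcendental ℚ (∑' n : ℕ, (1 : ℝ) / ((n : ℝ) + 1) ^ 3) ∧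
    ∃ P : Polynomial ℚ, P ≠ 0 ∧ P.natDegree ≤ m ∧
      Polynomial.aeval (((∑' n : ℕ, (1 : ℝ) / ((n : ℝ) + 1) ^ 3) / Real.pi ^ 3) ^ 2) P = 0 := by
  have hf : Module.Finite ℚ (Z n) := Pool.Agent.H447R2.MZ.finite_Zs n
  have hdim' : Module.finrank ℚ (Pool.Agent.H447R2.MZ.Zs n) ≤ m := by
    rw [← Module.finrank_eq_rank] at hdim
    exact_mod_cast hdim
  obtain ⟨P, hP0, hPd, hP⟩ := Pool.Agent.H447R2.MZ.degree_le 3 _ Pool.Agent.H447R2.MZ.z3_mem m n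
    (by omega) hdim' hn
  refine ⟨?_, P, hP0, hPd, hP⟩
  intro hz
  have ht := Pool.Agent.H447R2.MZ.transcendental_div 3 (by norm_num) _
      Pool.Agent.H447R2.MZ.z3_pos.ne' hz
  exact (ht.pow (by norm_num : 0 < 2)) ⟨P, hP0, hP⟩

end Pool.Agent.Results.MP_e48a95_nt.SmallDimension
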